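import Pool.Agent.H13.Borel.Core

/-!
# Borel's theorem on sums of exponentials with polynomial coefficients
-/

open Real Metric Set Complex Filter

namespace Pool.Agent.H13.Borel

/-- polynomial growth -/
def PolyGrowth (c : ℂ → ℂ) : Prop := ∃ K : ℝ, ∃ D : ℕ, ∀ z, ‖c z‖ ≤ K * (1 + ‖z‖) ^ D

lemma PolyGrowth.const_mul {c : ℂ → ℂ} (h : PolyGrowth c) (a : ℂ) :
    PolyGrowth (fun z => a * c z) := by
  obtain ⟨K, D, h⟩ := h
  refine ⟨‖a‖ * K, D, fun z => ?_⟩
  rw [norm_mul, mul_assoc]
  exact mul_le_mul_of_nonneg_left (h z) (norm_nonneg _)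

lemma polyGrowth_uniform {ι : Type*} (s : Finset ι) {c : ι → ℂ → ℂ}
    (h : ∀ i ∈ s, PolyGrowth (c i)) :
    ∃ K : ℝ, ∃ D : ℕ, 1 ≤ K ∧ ∀ i ∈ s, ∀ z, ‖c i z‖ ≤ K * (1 + ‖z‖) ^ D := by
  classical
  induction s using Finset.induction_on with
  | empty => exact ⟨1, 0, le_refl _, by simp⟩
  | insert a s ha ih =>
    obtain ⟨K, D, hK, hs⟩ := ih (fun i hi => h i (Finset.mem_insert_of_mem hi))
    obtain ⟨K', D', ha'⟩ := h a (Finset.mem_insert_self _ _)
    refine ⟨max K K', max D D', le_max_of_le_left hK, ?_⟩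
    have aux : ∀ (k : ℝ) (d : ℕ) (z : ℂ), k ≤ max K K' → d ≤ max D D' →
        k * (1 + ‖z‖) ^ d ≤ max K K' * (1 + ‖z‖) ^ (max D D') := by
      intro k d z hk hd
      have h1 : (1 + ‖z‖) ^ d ≤ (1 + ‖z‖) ^ (max D D') :=
        pow_le_pow_right₀ (by linarith [norm_nonneg z]) hd
      have h0 : 0 ≤ max K K' := le_max_of_le_left (by linarith)
      calc k * (1 + ‖z‖) ^ d ≤ max K K' * (1 + ‖z‖) ^ d := by gcongr
        _ ≤ _ := by gcongr
    intro i hi z
    rcases Finset.mem_insert.mp hi with rfl | hi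
    · exact (ha' z).trans (aux _ _ z (le_max_right _ _) (le_max_right _ _))
    · exact (hs i hi z).trans (aux _ _ z (le_max_left _ _) (le_max_left _ _))

/-- **Borel's theorem**: a nonempty sum `∑ c_i e^{φ_i}` with `c_i ≠ 0` entire of polynomial growth
and `φ_i` entire, no two differing by a constant, is not identically zero. -/
theorem borel {ι : Type*} (s : Finset ι) : ∀ (c φ : ι → ℂ → ℂ),
    (∀ i ∈ s, Differentiable ℂ (c i)) → (∀ i ∈ s, PolyGrowth (c i)) →
    (∀ i ∈ s, Differentiable ℂ (φ i)) → (∀ i ∈ s, c i ≠ 0) →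
    (∀ i ∈ s, ∀ j ∈ s, i ≠ j → ¬ ∃ k : ℂ, ∀ z, φ i z = φ j z + k) → s.Nonempty →
    ¬ ∀ z, ∑ i ∈ s, c i z * Complex.exp (φ i z) = 0 := by
  classical
  induction s using Finset.strongInduction with
  | H s ih =>
  intro c φ hc hcg hφ hne hdist hsne hsum
  obtain ⟨e, he⟩ := hsne
  by_cases hs1 : s.erase e = ∅
  · have hs : s = {e} := by
      rw [← Finset.insert_erase he, hs1]
      simp
    apply hne e he
    funext z
    have := hsum z
    rw [hs, Finset.sum_singleton] at this
    simpa using this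
  · obtain ⟨j₀, hj₀⟩ := Finset.nonempty_iff_ne_empty.mpr hs1
    obtain ⟨K, D, hK1, hK⟩ := polyGrowth_uniform s hcg
    have hmem : ∀ j : (s.erase e : Finset ι), (j : ι) ∈ s := fun j => Finset.mem_of_mem_erase j.2
    set φ' : ι → ℂ → ℂ := fun i z => φ i z - φ e z with hφ'
    apply borel_core (J := (s.erase e : Finset ι)) (c := fun j => c j) (ce := c e)
      (φ := fun j => φ' j) (K := K) (D := D)
    · exact fun j => hc j (hmem j)
    · exact hc e he
    · exact fun j => (hφ j (hmem j)).sub (hφ e he)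
    · exact hK1
    · exact fun j z => hK j (hmem j) z
    · exact fun z => hK e he z
    · refine ⟨⟨j₀, hj₀⟩, ?_⟩
      intro h
      apply hdist j₀ (Finset.mem_of_mem_erase hj₀) e he (Finset.ne_of_mem_erase hj₀)
      refine ⟨φ' j₀ 0, fun z => ?_⟩
      have := h z
      simp only [hφ'] at this ⊢
      linear_combination this
    · rw [Fintype.linearIndependent_iff]
      intro a ha
      by_contra hcon
      push Not at hcon
      obtain ⟨j₁, hj₁⟩ := hcon
      -- extend `a`
      set a' : ι → ℂ := fun i => if h : i ∈ s.erase e then a ⟨i, h⟩ else 0 with ha'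
      set t : Finset ι := (s.erase e).filter (fun i => a' i ≠ 0) with ht
      have hts : t ⊂ s := by
        refine lt_of_le_of_lt (Finset.filter_subset _ _) (Finset.erase_ssubset he)
      have htmem : ∀ i ∈ t, i ∈ s := fun i hi => hts.1 hi
      apply ih t hts (fun i z => a' i * c i z) φ'
      · exact fun i hi => (hc i (htmem i hi)).const_mul _
      · exact fun i hi => (hcg i (htmem i hi)).const_mul _
      · exact fun i hi => (hφ i (htmem i hi)).sub (hφ e he)
      · intro i hi h0
        apply hne i (htmem i hi)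
        funext z
        have h1 := congrFun h0 z
        have h2 : a' i ≠ 0 := (Finset.mem_filter.mp hi).2
        simpa [h2] using h1
      · rintro i hi j hj hij ⟨k, hk⟩
        apply hdist i (htmem i hi) j (htmem j hj) hij
        refine ⟨k, fun z => ?_⟩
        have := hk z
        simp only [hφ'] at this
        linear_combination this
      · refine ⟨j₁, ?_⟩
        rw [ht, Finset.mem_filter]
        refine ⟨j₁.2, ?_⟩
        simp only [ha', j₁.2, dif_pos]
        exact hj₁
      · intro z
        have h1 := congrFun ha z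
        simp only [Finset.sum_apply, Pi.smul_apply, smul_eq_mul, Pi.zero_apply] at h1
        rw [ht, Finset.sum_filter_of_ne]
        · rw [← Finset.sum_coe_sort (s.erase e)]
          rw [← h1]
          apply Finset.sum_congr rfl
          intro j _
          have : a' (j : ι) = a j := by
            simp only [ha', j.2, dif_pos]
          rw [this]; ring
        · intro i _ hi h0
          apply hi
          rw [h0]; ring
    · intro z
      have h1 := hsum z
      rw [← Finset.sum_erase_add _ _ he] at h1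
      rw [Finset.sum_coe_sort (s.erase e) (fun j => c j z * Complex.exp (φ' j z))]
      have h2 : ∑ i ∈ s.erase e, c i z * Complex.exp (φ' i z) + c e z
          = Complex.exp (-φ e z) * (∑ i ∈ s.erase e, c i z * Complex.exp (φ i z)
            + c e z * Complex.exp (φ e z)) := by
        rw [mul_add, Finset.mul_sum]
        congr 1
        · apply Finset.sum_congr rfl
          intro i _
          simp only [hφ']
          rw [sub_eq_add_neg, Complex.exp_add]; ring
        · have : Complex.exp (-φ e z) * (c e z * Complex.exp (φ e z))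
              = c e z * (Complex.exp (-φ e z) * Complex.exp (φ e z)) := by ring
          rw [this, ← Complex.exp_add]; simp
      rw [h2, h1, mul_zero]

lemma polyGrowth_polynomial (p : Polynomial ℂ) : PolyGrowth (fun z => p.eval z) := by
  refine ⟨∑ i ∈ Finset.range (p.natDegree + 1), ‖p.coeff i‖, p.natDegree, fun z => ?_⟩
  simp only [Polynomial.eval_eq_sum_range, Finset.sum_mul]
  refine (norm_sum_le _ _).trans ?_
  apply Finset.sum_le_sum
  intro i hi
  rw [norm_mul, norm_pow]
  have h1 : i ≤ p.natDegree := by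
    have := Finset.mem_range.mp hi; omega
  have h2 : ‖z‖ ^ i ≤ (1 + ‖z‖) ^ p.natDegree := by
    calc ‖z‖ ^ i ≤ (1 + ‖z‖) ^ i := by gcongr; linarith
      _ ≤ _ := pow_le_pow_right₀ (by linarith [norm_nonneg z]) h1
  gcongr

/-- Class version, polynomial coefficients, normalised exponents. -/
theorem borel_classes {ι : Type*} (s : Finset ι) (c : ι → Polynomial ℂ) (φ : ι → ℂ → ℂ)
    (hφ : ∀ i ∈ s, Differentiable ℂ (φ i)) (hφ0 : ∀ i ∈ s, φ i 0 = 0)
    (hsum : ∀ z, ∑ i ∈ s, (c i).eval z * Complex.exp (φ i z) = 0) (ψ : ℂ → ℂ)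
    (t : Finset ι) (ht : ∀ i, i ∈ t ↔ i ∈ s ∧ φ i = ψ) :
    ∑ i ∈ t, c i = 0 := by
  classical
  set T : Finset (ℂ → ℂ) := s.image φ with hT
  set C : (ℂ → ℂ) → Polynomial ℂ := fun θ => ∑ i ∈ s with φ i = θ, c i with hC
  have h1 : ∀ z, ∑ θ ∈ T, (C θ).eval z * Complex.exp (θ z) = 0 := by
    intro z
    rw [← hsum z, ← Finset.sum_fiberwise_of_maps_to (s := s) (t := T) (g := φ)
      (fun i hi => Finset.mem_image_of_mem φ hi)]
    apply Finset.sum_congr rfl
    intro θ _
    simp only [hC]
    rw [Polynomial.eval_finsetSum, Finset.sum_mul]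
    apply Finset.sum_congr rfl
    intro i hi
    rw [(Finset.mem_filter.mp hi).2]
  have h2 : ∀ θ ∈ T, C θ = 0 := by
    by_contra hcon
    push Not at hcon
    obtain ⟨θ, hθ, hθ0⟩ := hcon
    have hdat : ∀ θ ∈ T.filter (fun θ => C θ ≠ 0), Differentiable ℂ θ ∧ θ 0 = 0 := by
      intro θ hθ
      obtain ⟨i, hi, rfl⟩ := Finset.mem_image.mp (Finset.mem_filter.mp hθ).1
      exact ⟨hφ i hi, hφ0 i hi⟩
    apply borel (T.filter (fun θ => C θ ≠ 0)) (fun θ z => (C θ).eval z) (fun θ => θ)
    · exact fun θ _ => (C θ).differentiable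
    · exact fun θ _ => polyGrowth_polynomial (C θ)
    · exact fun θ hθ => (hdat θ hθ).1
    · intro θ hθ h0
      apply (Finset.mem_filter.mp hθ).2
      apply Polynomial.funext
      intro z
      simpa using congrFun h0 z
    · rintro θ hθ θ' hθ' hne ⟨k, hk⟩
      have hk0 := hk 0
      rw [(hdat θ hθ).2, (hdat θ' hθ').2, zero_add] at hk0
      apply hne
      funext z
      rw [hk z, ← hk0, add_zero]
    · exact ⟨θ, Finset.mem_filter.mpr ⟨hθ, hθ0⟩⟩
    · intro z
      rw [← h1 z, Finset.sum_filter_of_ne]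
      intro θ _ hθ h0
      apply hθ
      rw [h0]; simp
  have h3 : C ψ = 0 := by
    by_cases hψ : ψ ∈ T
    · exact h2 ψ hψ
    · simp only [hC]
      apply Finset.sum_eq_zero
      intro i hi
      exfalso
      apply hψ
      rw [← (Finset.mem_filter.mp hi).2]
      exact Finset.mem_image_of_mem φ (Finset.mem_filter.mp hi).1
  have h4 : t = s.filter (fun i => φ i = ψ) := by
    ext i; rw [ht, Finset.mem_filter]
  rw [h4]
  exact h3

end Pool.Agent.H13.Borel
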