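import Mathlib

/-!
# Bounds for logarithmic-type derivatives of `c e^φ`
-/

open Real Metric Set Complex Filter

namespace Pool.Agent.H13.Borel

/-- `e^{-φ} (c e^φ)^{(i)}` at `z`. -/
noncomputable def Pd (c φ : ℂ → ℂ) (i : ℕ) (z : ℂ) : ℂ :=
  Complex.exp (-φ z) * iteratedDeriv i (fun w => c w * Complex.exp (φ w)) z

lemma Pd_differentiable {c φ : ℂ → ℂ} (hc : Differentiable ℂ c) (hφ : Differentiable ℂ φ) (i : ℕ) :
    Differentiable ℂ (Pd c φ i) := by
  unfold Pd
  apply Differentiable.mul
  · exact (hφ.neg).cexp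
  · have h : Differentiable ℂ (fun w => c w * Complex.exp (φ w)) := hc.mul hφ.cexp
    have h2 : ContDiff ℂ ⊤ (fun w => c w * Complex.exp (φ w)) := h.contDiff
    exact h2.differentiable_iteratedDeriv i (by exact_mod_cast (WithTop.coe_lt_top _))

lemma Pd_mul_exp {c φ : ℂ → ℂ} (i : ℕ) (z : ℂ) :
    Complex.exp (φ z) * Pd c φ i z = iteratedDeriv i (fun w => c w * Complex.exp (φ w)) z := by
  unfold Pd
  rw [← mul_assoc, ← Complex.exp_add]
  simp

lemma Pd_bound {c φ : ℂ → ℂ} (hc : Differentiable ℂ c) (hφ : Differentiable ℂ φ) {K : ℝ} {D : ℕ}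
    (hK0 : 0 ≤ K) (hK : ∀ z, ‖c z‖ ≤ K * (1 + ‖z‖) ^ D) {R μ δ : ℝ} (hδ : 0 < δ) {z : ℂ}
    (hz : ‖z‖ + δ ≤ R) (hμ : ∀ w, ‖w‖ ≤ R → ‖φ w‖ ≤ μ) (i : ℕ) :
    ‖Pd c φ i z‖ ≤ i.factorial * (Real.exp 1 * (K * (1 + R) ^ D)) / (δ / (2 * (μ + 1))) ^ i := by
  have hR : 0 ≤ R := by linarith [norm_nonneg z]
  have hμ0 : 0 ≤ μ := (norm_nonneg _).trans (hμ 0 (by simpa using hR))
  set ρ : ℝ := δ / (2 * (μ + 1)) with hρ
  have hρpos : 0 < ρ := by positivity
  have hρδ : ρ < δ := by
    rw [hρ, div_lt_iff₀ (by positivity)]; nlinarith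
  have hinball : ∀ w ∈ ball z δ, ‖w‖ ≤ R := by
    intro w hw
    have h1 : ‖w - z‖ < δ := by simpa [dist_eq_norm] using hw
    calc ‖w‖ = ‖(w - z) + z‖ := by ring_nf
      _ ≤ ‖w - z‖ + ‖z‖ := norm_add_le _ _
      _ ≤ R := by linarith
  have hdiff : ∀ w, ‖w - z‖ = ρ → ‖φ w - φ z‖ ≤ 1 := by
    intro w hw
    have hmaps : MapsTo φ (ball z δ) (closedBall (φ z) (2 * (μ + 1))) := by
      intro x hx
      simp only [mem_closedBall, dist_eq_norm]
      calc ‖φ x - φ z‖ ≤ ‖φ x‖ + ‖φ z‖ := norm_sub_le _ _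
        _ ≤ μ + μ := add_le_add (hμ x (hinball x hx)) (hμ z (hinball z (mem_ball_self hδ)))
        _ ≤ 2 * (μ + 1) := by linarith
    have hw' : w ∈ ball z δ := by
      simp only [mem_ball, dist_eq_norm]; linarith
    have h := Complex.dist_le_div_mul_dist_of_mapsTo_ball (hφ.differentiableOn) hmaps hw'
    rw [dist_eq_norm, dist_eq_norm, hw] at h
    refine h.trans ?_
    rw [hρ]
    apply le_of_eq
    field_simp
  have hf : Differentiable ℂ (fun w => Complex.exp (-φ z) * (c w * Complex.exp (φ w))) :=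
    (hc.mul hφ.cexp).const_mul _
  have h1 : ∀ w ∈ sphere z ρ, ‖Complex.exp (-φ z) * (c w * Complex.exp (φ w))‖
      ≤ Real.exp 1 * (K * (1 + R) ^ D) := by
    intro w hw
    have hw1 : ‖w - z‖ = ρ := by simpa [dist_eq_norm] using hw
    have hw2 : ‖w‖ ≤ R := hinball w (by simp only [mem_ball, dist_eq_norm]; linarith)
    have e1 : Complex.exp (-φ z) * (c w * Complex.exp (φ w)) = Complex.exp (φ w - φ z) * c w := by
      rw [sub_eq_add_neg, Complex.exp_add]; ring
    rw [e1, norm_mul, Complex.norm_exp]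
    have h2 : (φ w - φ z).re ≤ 1 := (Complex.re_le_norm _).trans (hdiff w hw1)
    gcongr
    refine (hK w).trans ?_
    gcongr
  have h2 := Complex.norm_iteratedDeriv_le_of_forall_mem_sphere_norm_le i hρpos
    (hf.diffContOnCl (s := ball z ρ)) h1
  have e2 : iteratedDeriv i (fun w => Complex.exp (-φ z) * (c w * Complex.exp (φ w))) z
      = Pd c φ i z := by
    unfold Pd
    rw [iteratedDeriv_const_mul_field]
  rw [e2] at h2
  exact h2

/-- Taylor coefficients determine an entire function. -/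
lemma eq_zero_of_iteratedDeriv {f : ℂ → ℂ} (hf : Differentiable ℂ f)
    (h : ∀ n, iteratedDeriv n f 0 = 0) (z : ℂ) : f z = 0 := by
  rw [← Complex.taylorSeries_eq_of_entire' 0 z hf]
  simp [h]

/-- Linearly independent entire functions have a nonzero generalised Wronskian minor at `0`. -/
lemma exists_orders {J : Type*} [Fintype J] [DecidableEq J] {f : J → ℂ → ℂ}
    (hf : ∀ j, Differentiable ℂ (f j)) (hli : LinearIndependent ℂ f) :
    ∃ I : J → ℕ, (Matrix.of fun j a => iteratedDeriv (I a) (f j) 0).det ≠ 0 := by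
  -- column vectors
  set col : ℕ → (J → ℂ) := fun i j => iteratedDeriv i (f j) 0 with hcol
  have hspan : Submodule.span ℂ (range col) = ⊤ := by
    by_contra hne
    obtain ⟨ℓ, hℓ0, hℓ⟩ := Submodule.exists_le_ker_of_lt_top _ (lt_top_iff_ne_top.mpr hne)
    -- `ℓ v = ∑ a_j v_j`
    set a : J → ℂ := fun j => ℓ (Pi.single j 1) with ha
    have hℓv : ∀ v : J → ℂ, ℓ v = ∑ j, v j * a j := by
      intro v
      conv_lhs => rw [LinearMap.pi_apply_eq_sum_univ ℓ v]
      apply Finset.sum_congr rfl
      intro j _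
      simp only [smul_eq_mul, ha]
      congr 2
      funext k
      simp [Pi.single_apply, eq_comm]
    have hzero : ∀ i, ∑ j, iteratedDeriv i (f j) 0 * a j = 0 := by
      intro i
      have : col i ∈ LinearMap.ker ℓ := hℓ (Submodule.subset_span (mem_range_self i))
      rw [LinearMap.mem_ker, hℓv] at this
      exact this
    have hsum : (∑ j, a j • f j) = 0 := by
      funext z
      have hd : Differentiable ℂ (∑ j, a j • f j) := by
        apply Differentiable.sum
        intro j _
        exact (hf j).const_smul (a j)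
      apply eq_zero_of_iteratedDeriv hd
      intro n
      rw [iteratedDeriv_sum]
      · refine Eq.trans ?_ (hzero n)
        apply Finset.sum_congr rfl
        intro j _
        have : (a j • f j) = fun z => a j * f j z := by funext z; simp
        rw [this, iteratedDeriv_const_mul_field]
        ring
      · intro j _
        exact (((hf j).const_smul (a j)).contDiff).contDiffAt
    have ha0 := Fintype.linearIndependent_iff.mp hli a hsum
    apply hℓ0
    apply LinearMap.ext
    intro v
    rw [hℓv]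
    simp [ha0]
  obtain ⟨κ, e, he, hsp, hli'⟩ := exists_linearIndependent' ℂ col
  rw [hspan] at hsp
  let b : Module.Basis κ ℂ (J → ℂ) := Module.Basis.mk hli' hsp.ge
  have : Finite κ := Module.Finite.finite_basis b
  have : Fintype κ := Fintype.ofFinite κ
  have hcard : Fintype.card κ = Fintype.card J := by
    have h1 := Module.finrank_eq_card_basis b
    rw [Module.finrank_fintype_fun_eq_card] at h1
    exact h1.symm
  let σ : J ≃ κ := (Fintype.equivOfCardEq hcard).symm
  refine ⟨fun a => e (σ a), ?_⟩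
  have hli2 : LinearIndependent ℂ (fun a : J => col (e (σ a))) := hli'.comp σ σ.injective
  have hM : (Matrix.of fun j a => iteratedDeriv (e (σ a)) (f j) 0)
      = (Matrix.of fun a j => col (e (σ a)) j).transpose := by
    ext j a; simp [hcol]
  rw [hM, Matrix.det_transpose]
  have := (Matrix.linearIndependent_rows_iff_isUnit (A := Matrix.of fun a j => col (e (σ a)) j)).mp
    hli2
  exact ((Matrix.isUnit_iff_isUnit_det _).mp this).ne_zero

end Pool.Agent.H13.Borel
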