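import Mathlib

/-!
# A growth lemma of Borel type
-/

open Real Filter

namespace Pool.Agent.H13.Borel

/-- Iteration: a nondecreasing function cannot satisfy `M (x (1 + 3 M(x)^{-1/4})) > M(x)^2` for all
large `x`. -/
lemma iterate_false {M : ℝ → ℝ} (hmono : ∀ x y, 1 ≤ x → x ≤ y → M x ≤ M y)
    {x₀ : ℝ} (hx₀ : 1 ≤ x₀) (h0 : (12:ℝ) ^ 4 ≤ M x₀)
    (hstep : ∀ x, x₀ ≤ x → ∀ η : ℝ, 0 < η → η ^ 4 * M x = 1 → M x ^ 2 < M (x * (1 + 3 * η))) :
    False := by
  have key : ∀ k : ℕ, ∃ x, x₀ ≤ x ∧ x ≤ x₀ * (2 - (1/2) ^ k) ∧ (6 * 2 ^ (k+1) : ℝ) ^ 4 ≤ M x := by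
    intro k
    induction k with
    | zero => exact ⟨x₀, le_refl _, by norm_num, by norm_num; norm_num at h0; exact h0⟩
    | succ k ih =>
      obtain ⟨x, hx1, hx2, hx3⟩ := ih
      have hMpos : 0 < M x := lt_of_lt_of_le (by positivity) hx3
      set η : ℝ := (1 / M x) ^ (1/4 : ℝ) with hη
      have hηpos : 0 < η := by positivity
      have hη4 : η ^ 4 * M x = 1 := by
        rw [hη, ← Real.rpow_natCast, ← Real.rpow_mul (by positivity)]
        norm_num
        field_simp
      have hs := hstep x hx1 η hηpos hη4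
      have hηle : η * (6 * 2 ^ (k+1)) ≤ 1 := by
        by_contra hcon
        push Not at hcon
        have h1 : 1 < (η * (6 * 2 ^ (k+1))) ^ 4 := one_lt_pow₀ hcon (by norm_num)
        rw [mul_pow] at h1
        have h2 : η ^ 4 * (6 * 2 ^ (k+1)) ^ 4 ≤ η ^ 4 * M x := by gcongr
        linarith
      refine ⟨x * (1 + 3 * η), ?_, ?_, ?_⟩
      · have : 0 < x := by linarith
        nlinarith [mul_pos this hηpos]
      · have h3 : x * (1 + 3 * η) = x + 3 * x * η := by ring
        have hx2' : x ≤ x₀ * 2 := by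
          have : (0:ℝ) < (1/2)^k := by positivity
          nlinarith
        have h4 : 3 * x * η ≤ x₀ * (1/2) ^ (k+1) := by
          have h5 : η ≤ (1/2)^(k+1) / 6 := by
            rw [le_div_iff₀ (by norm_num)]
            have : (1/2 : ℝ)^(k+1) * 2^(k+1) = 1 := by rw [← mul_pow]; norm_num
            have h2p : (0:ℝ) < 2^(k+1) := by positivity
            have : η * 6 * 2^(k+1) ≤ (1/2 : ℝ)^(k+1) * 2^(k+1) := by rw [this]; linarith
            exact le_of_mul_le_mul_right this h2p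
          have hpos : (0:ℝ) < (1/2)^(k+1) := by positivity
          calc 3 * x * η ≤ 3 * x * ((1/2)^(k+1) / 6) := by
                apply mul_le_mul_of_nonneg_left h5; linarith
            _ ≤ 3 * (x₀ * 2) * ((1/2)^(k+1) / 6) := by gcongr
            _ = x₀ * (1/2) ^ (k+1) := by ring
        rw [h3]
        have h6 : (1/2 : ℝ)^(k+1) = (1/2)^k / 2 := by rw [pow_succ]; ring
        rw [h6] at h4 ⊢
        nlinarith
      · have h7 : (6 * 2 ^ (k+1+1) : ℝ) ^ 4 ≤ ((6 * 2 ^ (k+1) : ℝ) ^ 4) ^ 2 := by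
          have : ((6 * 2 ^ (k+1) : ℝ) ^ 4) ^ 2 = ((6 * 2 ^ (k+1) : ℝ) ^ 2) ^ 4 := by ring
          rw [this]
          apply pow_le_pow_left₀ (by positivity)
          have h2p : (1:ℝ) ≤ 2^(k+1) := one_le_pow₀ (by norm_num)
          have : (6 * 2 ^ (k+1+1) : ℝ) = 12 * 2^(k+1) := by rw [pow_succ 2 (k+1)]; ring
          rw [this]
          nlinarith
        have h8 : ((6 * 2 ^ (k+1) : ℝ) ^ 4) ^ 2 ≤ M x ^ 2 := by gcongr
        linarith
  -- contradiction
  obtain ⟨n, hn⟩ := exists_nat_gt (M (x₀ * 2))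
  obtain ⟨x, hx1, hx2, hx3⟩ := key n
  have h1 : M x ≤ M (x₀ * 2) := by
    apply hmono x _ (by linarith)
    have : (0:ℝ) < (1/2)^n := by positivity
    nlinarith
  have h2 : (n : ℝ) ≤ (6 * 2 ^ (n+1) : ℝ) ^ 4 := by
    have h3 : (n : ℝ) ≤ 2 ^ n := by exact_mod_cast (Nat.lt_two_pow_self).le
    have h4 : (2:ℝ)^n ≤ 6 * 2^(n+1) := by
      rw [pow_succ]
      have : (0:ℝ) < 2^n := by positivity
      nlinarith
    have h5 : (1:ℝ) ≤ 6 * 2^(n+1) := by
      have : (1:ℝ) ≤ 2^(n+1) := one_le_pow₀ (by norm_num)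
      linarith
    have h6 : (6 * 2^(n+1) : ℝ) ≤ (6 * 2 ^ (n+1)) ^ 4 := le_self_pow₀ h5 (by norm_num)
    linarith
  linarith

/-- The growth lemma. -/
lemma growth_false {M : ℝ → ℝ} (hmono : ∀ x y, 1 ≤ x → x ≤ y → M x ≤ M y)
    {c C : ℝ} (hc : 0 < c) (hC : 0 ≤ C) (hlin : ∀ x, 1 ≤ x → c * x ≤ M x)
    (hineq : ∀ x, 1 ≤ x → ∀ η : ℝ, 0 < η → η ≤ 1 →
      M x ≤ C / η ^ 2 * (1 + Real.log (1 + x) + Real.log (1 + M (x * (1 + 3 * η)))
        + Real.log (1 / η))) : False := by
  -- for large `t`, `√t > C (A + 4 log t)`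
  set A : ℝ := 1 + Real.log (1 + 1 / c) + Real.log 2 with hA
  have hT : ∀ᶠ t : ℝ in atTop, C * (A + 4 * Real.log t) < Real.sqrt t := by
    have h1 : Tendsto (fun t : ℝ => (Real.sqrt t)⁻¹) atTop (nhds 0) :=
      tendsto_inv_atTop_zero.comp Real.tendsto_sqrt_atTop
    have h2 : Tendsto (fun t : ℝ => Real.log t / Real.sqrt t) atTop (nhds 0) := by
      have := (isLittleO_log_rpow_atTop (r := 1/2) (by norm_num)).tendsto_div_nhds_zero
      simpa [Real.sqrt_eq_rpow] using this
    have h3 : Tendsto (fun t : ℝ => C * (A * (Real.sqrt t)⁻¹ + 4 * (Real.log t / Real.sqrt t)))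
        atTop (nhds 0) := by
      have := ((h1.const_mul A).add (h2.const_mul 4)).const_mul C
      simpa using this
    filter_upwards [h3.eventually (gt_mem_nhds (show (0:ℝ) < 1 by norm_num)), eventually_gt_atTop 0]
      with t ht ht0
    have hs : 0 < Real.sqrt t := Real.sqrt_pos.mpr ht0
    have : C * (A + 4 * Real.log t) = C * (A * (Real.sqrt t)⁻¹ + 4 * (Real.log t / Real.sqrt t))
        * Real.sqrt t := by field_simp
    rw [this]
    nlinarith
  obtain ⟨T, hT⟩ := Filter.eventually_atTop.mp hT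
  set x₀ : ℝ := max 1 ((max T (12 ^ 4)) / c) with hx₀
  have hx₀1 : 1 ≤ x₀ := le_max_left _ _
  have hbig : ∀ x, x₀ ≤ x → max T (12 ^ 4) ≤ M x := by
    intro x hx
    have h1 : max T (12 ^ 4) / c ≤ x := (le_max_right _ _).trans hx
    rw [div_le_iff₀ hc] at h1
    have := hlin x (hx₀1.trans hx)
    linarith
  apply iterate_false hmono hx₀1 ((le_max_right _ _).trans (hbig x₀ le_rfl))
  intro x hx η hη hη4
  by_contra hcon
  push Not at hcon
  have hx1 : 1 ≤ x := hx₀1.trans hx
  have hMbig := hbig x hx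
  have hM1 : (12:ℝ)^4 ≤ M x := (le_max_right _ _).trans hMbig
  have hMpos : 0 < M x := by linarith [show (0:ℝ) < 12^4 by norm_num]
  have hM1' : 1 ≤ M x := by norm_num at hM1; linarith
  have hη1 : η ≤ 1 := by
    by_contra h
    push Not at h
    have : 1 < η ^ 4 := one_lt_pow₀ h (by norm_num)
    nlinarith
  have h := hineq x hx1 η hη hη1
  have hsq : η ^ 2 * Real.sqrt (M x) = 1 := by
    have h1 : (η ^ 2 * Real.sqrt (M x)) ^ 2 = 1 := by
      rw [mul_pow, Real.sq_sqrt hMpos.le]; nlinarith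
    have h2 : 0 ≤ η ^ 2 * Real.sqrt (M x) := by positivity
    nlinarith [sq_nonneg (η ^ 2 * Real.sqrt (M x) - 1), sq_nonneg (η ^ 2 * Real.sqrt (M x) + 1)]
  have hCη : C / η ^ 2 = C * Real.sqrt (M x) := by
    rw [div_eq_iff (by positivity)]
    calc C = C * (η ^ 2 * Real.sqrt (M x)) := by rw [hsq, mul_one]
      _ = _ := by ring
  have hl1 : Real.log (1 + x) ≤ Real.log (1 + 1 / c) + Real.log (M x) := by
    rw [← Real.log_mul (by positivity) hMpos.ne']
    apply Real.log_le_log (by linarith)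
    have := hlin x hx1
    have h3 : x ≤ M x / c := by rw [le_div_iff₀ hc]; linarith
    calc 1 + x ≤ M x + M x / c := by linarith
      _ = (1 + 1 / c) * M x := by ring
  have hl2 : Real.log (1 + M (x * (1 + 3 * η))) ≤ Real.log 2 + 2 * Real.log (M x) := by
    have h4 : Real.log 2 + 2 * Real.log (M x) = Real.log (2 * M x ^ 2) := by
      rw [Real.log_mul (by norm_num) (by positivity), Real.log_pow]; norm_num
    rw [h4]
    have h5 : 0 ≤ M (x * (1 + 3 * η)) := by
      have : x ≤ x * (1 + 3 * η) := by nlinarith [mul_pos (by linarith : (0:ℝ) < x) hη]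
      have := hmono x _ hx1 this
      linarith
    apply Real.log_le_log (by linarith)
    nlinarith
  have hl3 : Real.log (1 / η) ≤ Real.log (M x) := by
    apply Real.log_le_log (by positivity)
    rw [div_le_iff₀ hη]
    have h6 : η ^ 4 ≤ η := by
      calc η ^ 4 = η * η ^ 3 := by ring
        _ ≤ η * 1 := by
          apply mul_le_mul_of_nonneg_left _ hη.le
          exact pow_le_one₀ hη.le hη1
        _ = η := by ring
    nlinarith
  have hfin : M x ≤ Real.sqrt (M x) * (C * (A + 4 * Real.log (M x))) := by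
    calc M x ≤ C / η ^ 2 * (1 + Real.log (1 + x) + Real.log (1 + M (x * (1 + 3 * η)))
        + Real.log (1 / η)) := h
      _ ≤ C / η ^ 2 * (A + 4 * Real.log (M x)) := by
          apply mul_le_mul_of_nonneg_left _ (by positivity)
          rw [hA]; linarith
      _ = _ := by rw [hCη]; ring
  have hlt := hT (M x) ((le_max_left _ _).trans hMbig)
  have hspos : 0 < Real.sqrt (M x) := Real.sqrt_pos.mpr hMpos
  have : Real.sqrt (M x) * (C * (A + 4 * Real.log (M x))) < Real.sqrt (M x) * Real.sqrt (M x) := by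
    apply mul_lt_mul_of_pos_left hlt hspos
  rw [Real.mul_self_sqrt hMpos.le] at this
  linarith

end Pool.Agent.H13.Borel
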