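import Pool.Agent.H13.Borel.Poisson
import Pool.Agent.H13.Borel.Growth
import Pool.Agent.H13.Borel.Deriv

/-!
# The core of Borel's theorem
-/

open Real Metric Set Complex Filter

namespace Pool.Agent.H13.Borel

/-- determinant identity -/
lemma det_identity {J : Type*} [Fintype J] [DecidableEq J] {c : J → ℂ → ℂ} {ce : ℂ → ℂ}
    {φ : J → ℂ → ℂ} (hc : ∀ j, Differentiable ℂ (c j))
    (hφ : ∀ j, Differentiable ℂ (φ j))
    (hsum : ∀ z, ∑ j, c j z * Complex.exp (φ j z) + ce z = 0) (I : J → ℕ) (k : J) (z : ℂ) :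
    ((Matrix.of fun j a => Pd (c j) (φ j) (I a) z).updateRow k
        (fun a => Pd ce (fun _ => 0) (I a) z)).det
      = - (Complex.exp (φ k z) * (Matrix.of fun j a => Pd (c j) (φ j) (I a) z).det) := by
  set P : Matrix J J ℂ := Matrix.of fun j a => Pd (c j) (φ j) (I a) z with hP
  set f : J → ℂ → ℂ := fun j w => c j w * Complex.exp (φ j w) with hf
  set A : Matrix J J ℂ := Matrix.of fun j a => iteratedDeriv (I a) (f j) z with hA
  have hfd : ∀ j, Differentiable ℂ (f j) := fun j => (hc j).mul (hφ j).cexp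
  have hA1 : A = Matrix.of fun j a => Complex.exp (φ j z) * P j a := by
    ext j a
    simp only [hA, hP, Matrix.of_apply, hf]
    rw [Pd_mul_exp]
  have hdetA : A.det = (∏ j, Complex.exp (φ j z)) * P.det := by
    rw [hA1, Matrix.det_mul_column]
  have hce : ce = fun w => - ∑ j, f j w := by
    funext w
    have := hsum w
    simp only [hf]
    linear_combination this
  have hPe : ∀ i, Pd ce (fun _ => 0) i z = - ∑ j, iteratedDeriv i (f j) z := by
    intro i
    unfold Pd
    simp only [neg_zero, Complex.exp_zero, one_mul, mul_one]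
    rw [show (fun w => ce w) = -(∑ j, f j) by
      rw [hce]; funext w; simp]
    rw [iteratedDeriv_neg, iteratedDeriv_sum]
    intro j _
    exact (hfd j).contDiff.contDiffAt
  have hrow : (fun a => Pd ce (fun _ => 0) (I a) z) = ∑ j, (-1 : ℂ) • A j := by
    funext a
    rw [hPe]
    simp [hA, Finset.sum_apply]
  have h1 : (A.updateRow k (fun a => Pd ce (fun _ => 0) (I a) z)).det = - A.det := by
    rw [hrow, Matrix.det_updateRow_sum A k (fun _ => (-1 : ℂ))]
    simp
  set v : J → ℂ := Function.update (fun j => Complex.exp (φ j z)) k 1 with hv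
  have h2 : A.updateRow k (fun a => Pd ce (fun _ => 0) (I a) z)
      = Matrix.of fun j a => v j * (P.updateRow k (fun a => Pd ce (fun _ => 0) (I a) z)) j a := by
    ext j a
    by_cases hj : j = k
    · subst hj
      simp [hv]
    · simp only [Matrix.of_apply, hv, Matrix.updateRow_ne hj, Function.update_of_ne hj]
      rw [hA1]
      simp
  rw [h2, Matrix.det_mul_column, hdetA] at h1
  have h3 : ∏ j, Complex.exp (φ j z) = Complex.exp (φ k z) * ∏ j, v j := by
    rw [hv, Finset.prod_update_of_mem (Finset.mem_univ k),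
      ← Finset.mul_prod_erase _ _ (Finset.mem_univ k), one_mul, Finset.sdiff_singleton_eq_erase]
  have hv0 : ∏ j, v j ≠ 0 := by
    rw [Finset.prod_ne_zero_iff]
    intro j _
    by_cases hj : j = k
    · subst hj; simp [hv]
    · simp [hv, Function.update_of_ne hj]
  rw [h3] at h1
  apply mul_left_cancel₀ hv0
  rw [h1]
  ring

lemma exists_sup {S : ℂ → ℝ} (hS : Continuous S) (_ : ∀ z, 0 ≤ S z) :
    ∃ M : ℝ → ℝ, (∀ ρ z, ‖z‖ ≤ ρ → S z ≤ M ρ) ∧ (∀ ρ, 0 ≤ ρ → ∃ z, ‖z‖ ≤ ρ ∧ S z = M ρ) := by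
  have h : ∀ ρ : ℝ, ∃ m : ℝ, (∀ z, ‖z‖ ≤ ρ → S z ≤ m) ∧ (0 ≤ ρ → ∃ z, ‖z‖ ≤ ρ ∧ S z = m) := by
    intro ρ
    by_cases hρ : 0 ≤ ρ
    · obtain ⟨x, hx, hmax⟩ := (isCompact_closedBall (0:ℂ) ρ).exists_isMaxOn
        (nonempty_closedBall.mpr hρ) hS.continuousOn
      refine ⟨S x, ?_, fun _ => ⟨x, by simpa using hx, rfl⟩⟩
      intro z hz
      exact hmax (by simpa using hz)
    · refine ⟨0, ?_, fun h => absurd h hρ⟩
      intro z hz
      exact absurd ((norm_nonneg z).trans hz) hρ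
  choose M hM using h
  exact ⟨M, fun ρ => (hM ρ).1, fun ρ => (hM ρ).2⟩

lemma linear_growth {φ : ℂ → ℂ} (hφ : Differentiable ℂ φ) (hnc : ¬ ∀ z, φ z = φ 0) :
    ∃ c : ℝ, 0 < c ∧ ∀ x M : ℝ, 1 ≤ x → (∀ z, ‖z‖ ≤ x → ‖φ z‖ ≤ M) → c * x ≤ M := by
  have h1 : ∃ n, 1 ≤ n ∧ iteratedDeriv n φ 0 ≠ 0 := by
    by_contra hcon
    push Not at hcon
    apply hnc
    intro z
    have hd : Differentiable ℂ (fun w => φ w - φ 0) := hφ.sub_const _
    have := eq_zero_of_iteratedDeriv hd ?_ z
    · linear_combination this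
    · intro n
      rcases Nat.eq_zero_or_pos n with rfl | hn
      · simp
      · have e : (fun w => φ w - φ 0) = φ - (fun _ => φ 0) := rfl
        rw [e, iteratedDeriv_sub hφ.contDiff.contDiffAt contDiffAt_const, hcon n hn,
          iteratedDeriv_const]
        simp [hn.ne']
  obtain ⟨n, hn, hne⟩ := h1
  refine ⟨‖iteratedDeriv n φ 0‖ / n.factorial, by positivity, ?_⟩
  intro x M hx hM
  have hxpos : 0 < x := by linarith
  have h2 := Complex.norm_iteratedDeriv_le_of_forall_mem_sphere_norm_le n hxpos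
    (hφ.diffContOnCl (s := ball 0 x)) (C := M) (fun z hz => hM z (by
      have : ‖z‖ = x := by simpa using hz
      exact this.le))
  have hM0 : 0 ≤ M := (norm_nonneg _).trans (hM 0 (by simpa using hxpos.le))
  rw [le_div_iff₀ (by positivity)] at h2
  rw [div_mul_eq_mul_div, div_le_iff₀ (by positivity)]
  have h3 : x ≤ x ^ n := le_self_pow₀ hx (by omega)
  calc ‖iteratedDeriv n φ 0‖ * x ≤ ‖iteratedDeriv n φ 0‖ * x ^ n := by gcongr
    _ ≤ n.factorial * M := h2
    _ = M * n.factorial := by ring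

/-- the logarithm of the determinant bound -/
lemma log_bound (m Im D : ℕ) {K x η μ : ℝ} (hK1 : 1 ≤ K) (hx : 1 ≤ x) (hη : 0 < η) (hη1 : η ≤ 1)
    (hμnn : 0 ≤ μ) :
    0 ≤ Real.log (m.factorial * (Im.factorial * (Real.exp 1 * (K * (1 + x * (1 + 3 * η)) ^ D))
        * (2 * (μ + 1) / η) ^ Im) ^ m) ∧
    Real.log (m.factorial * (Im.factorial * (Real.exp 1 * (K * (1 + x * (1 + 3 * η)) ^ D))
        * (2 * (μ + 1) / η) ^ Im) ^ m)
      ≤ (Real.log m.factorial + m * (Real.log Im.factorial + 1 + Real.log K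
        + D * Real.log 4 + Im * Real.log 2) + m * D + m * Im)
        * (1 + Real.log (1 + x) + Real.log (1 + μ) + Real.log (1 / η)) := by
  have hxpos : 0 < x := by linarith
  have hxη : 0 < x * η := mul_pos hxpos hη
  set R : ℝ := x * (1 + 3 * η) with hR
  have hRpos : 0 < R := by rw [hR]; positivity
  have hIf : (Im.factorial : ℝ) ≠ 0 := by exact_mod_cast (Nat.factorial_pos Im).ne'
  have hmf : (m.factorial : ℝ) ≠ 0 := by exact_mod_cast (Nat.factorial_pos m).ne'
  have hη' : (0:ℝ) < 1 / η := by positivity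
  have h1R : (1 + R : ℝ) ≠ 0 := by positivity
  have hKp : K ≠ 0 := by positivity
  have h2μ : 2 * (μ + 1) / η ≠ 0 := by positivity
  have hlogm : 0 ≤ Real.log m.factorial := Real.log_nonneg (by exact_mod_cast Nat.factorial_pos m)
  have hlogI : 0 ≤ Real.log Im.factorial := Real.log_nonneg (by exact_mod_cast Nat.factorial_pos Im)
  have hlogK : 0 ≤ Real.log K := Real.log_nonneg hK1
  have hlog4 : 0 ≤ Real.log 4 := Real.log_nonneg (by norm_num)
  have hlog2 : 0 ≤ Real.log 2 := Real.log_nonneg (by norm_num)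
  have hlogR : Real.log (1 + R) ≤ Real.log 4 + Real.log (1 + x) := by
    rw [← Real.log_mul (by norm_num) (by positivity)]
    apply Real.log_le_log (by positivity)
    rw [hR]; nlinarith
  have hlogRnn : 0 ≤ Real.log (1 + R) := Real.log_nonneg (by linarith)
  have hval : Real.log (m.factorial * (Im.factorial * (Real.exp 1 * (K * (1 + R) ^ D))
        * (2 * (μ + 1) / η) ^ Im) ^ m) = Real.log m.factorial + m * (Real.log Im.factorial + 1
        + Real.log K + D * Real.log (1 + R)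
      + Im * (Real.log 2 + Real.log (1 + μ) + Real.log (1 / η))) := by
    rw [Real.log_mul hmf (by positivity), Real.log_pow,
      Real.log_mul (by positivity) (pow_ne_zero _ h2μ), Real.log_mul hIf (by positivity),
      Real.log_mul (Real.exp_pos 1).ne' (by positivity), Real.log_exp,
      Real.log_mul hKp (pow_ne_zero _ h1R), Real.log_pow, Real.log_pow]
    rw [show 2 * (μ + 1) / η = 2 * (1 + μ) * (1 / η) by ring,
      Real.log_mul (by positivity) hη'.ne', Real.log_mul (by norm_num) (by positivity)]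
    ring
  rw [hval]
  generalize Real.log (1 + R) = lR at hlogR hlogRnn ⊢
  have hlxnn : 0 ≤ Real.log (1 + x) := Real.log_nonneg (by linarith)
  have hlμnn : 0 ≤ Real.log (1 + μ) := Real.log_nonneg (by linarith)
  have hlηnn : 0 ≤ Real.log (1 / η) := Real.log_nonneg (by rw [le_div_iff₀ hη]; linarith)
  generalize Real.log (1 + x) = lx at hlxnn hlogR ⊢
  generalize Real.log (1 + μ) = lμ at hlμnn ⊢
  generalize Real.log (1 / η) = lη at hlηnn ⊢
  generalize Real.log (m.factorial : ℝ) = lm at hlogm ⊢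
  generalize Real.log (Im.factorial : ℝ) = lI at hlogI ⊢
  generalize Real.log K = lK at hlogK ⊢
  generalize Real.log 4 = l4 at hlog4 hlogR ⊢
  generalize Real.log 2 = l2 at hlog2 ⊢
  have hmn : (0:ℝ) ≤ m := Nat.cast_nonneg m
  have hDn : (0:ℝ) ≤ D := Nat.cast_nonneg D
  have hIn : (0:ℝ) ≤ Im := Nat.cast_nonneg Im
  constructor
  · positivity
  · set Q : ℝ := 1 + lx + lμ + lη with hQ
    have hQ1 : 1 ≤ Q := by linarith
    have h1 : (D:ℝ) * lR ≤ D * (l4 + lx) := by gcongr
    calc lm + m * (lI + 1 + lK + D * lR + Im * (l2 + lμ + lη))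
        ≤ lm + m * (lI + 1 + lK + D * (l4 + lx) + Im * (l2 + lμ + lη)) := by gcongr
      _ = (lm + m * (lI + 1 + lK + D * l4 + Im * l2)) + m * D * lx + m * Im * (lμ + lη) := by ring
      _ ≤ (lm + m * (lI + 1 + lK + D * l4 + Im * l2)) * Q + m * D * Q + m * Im * Q := by
          have h2 : 0 ≤ lm + m * (lI + 1 + lK + D * l4 + Im * l2) := by positivity
          have h3 : (m:ℝ) * D * lx ≤ m * D * Q := by
            apply mul_le_mul_of_nonneg_left _ (by positivity); linarith
          have h4 : (m:ℝ) * Im * (lμ + lη) ≤ m * Im * Q := by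
            apply mul_le_mul_of_nonneg_left _ (by positivity); linarith
          have h5 := le_mul_of_one_le_right h2 hQ1
          linarith
      _ = (lm + m * (lI + 1 + lK + D * l4 + Im * l2) + m * D + m * Im) * Q := by ring

theorem borel_core {J : Type*} [Fintype J] [DecidableEq J] {c : J → ℂ → ℂ} {ce : ℂ → ℂ}
    {φ : J → ℂ → ℂ} (hc : ∀ j, Differentiable ℂ (c j)) (hce : Differentiable ℂ ce)
    (hφ : ∀ j, Differentiable ℂ (φ j)) {K : ℝ} {D : ℕ} (hK1 : 1 ≤ K)
    (hK : ∀ j z, ‖c j z‖ ≤ K * (1 + ‖z‖) ^ D) (hKe : ∀ z, ‖ce z‖ ≤ K * (1 + ‖z‖) ^ D)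
    (hnc : ∃ j, ¬ ∀ z, φ j z = φ j 0)
    (hli : LinearIndependent ℂ (fun j z => c j z * Complex.exp (φ j z)))
    (hsum : ∀ z, ∑ j, c j z * Complex.exp (φ j z) + ce z = 0) : False := by
  obtain ⟨I, hI⟩ := exists_orders (f := fun j z => c j z * Complex.exp (φ j z))
    (fun j => (hc j).mul (hφ j).cexp) hli
  set P : ℂ → Matrix J J ℂ := fun z => Matrix.of fun j a => Pd (c j) (φ j) (I a) z with hP
  set E : ℂ → ℂ := fun z => (P z).det with hE
  set Dk : J → ℂ → ℂ := fun k z =>
    ((P z).updateRow k (fun a => Pd ce (fun _ => 0) (I a) z)).det with hDk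
  have hDE : ∀ k z, Dk k z = - (Complex.exp (φ k z) * E z) := fun k z =>
    det_identity hc hφ hsum I k z
  have hE0 : E 0 ≠ 0 := by
    intro h0
    apply hI
    have : (Matrix.of fun j a => iteratedDeriv (I a) (fun z => c j z * Complex.exp (φ j z)) 0)
        = Matrix.of fun j a => Complex.exp (φ j 0) * P 0 j a := by
      ext j a
      simp only [hP, Matrix.of_apply]
      rw [Pd_mul_exp]
    rw [this, Matrix.det_mul_column]
    simp only [hE] at h0
    rw [h0, mul_zero]
  have hEd : Differentiable ℂ E := by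
    simp only [hE, Matrix.det_apply, hP, Matrix.of_apply]
    apply Differentiable.fun_sum
    intro σ _
    apply Differentiable.const_smul
    apply Differentiable.fun_finsetProd
    intro i _
    exact Pd_differentiable (hc _) (hφ _) _
  set S : ℂ → ℝ := fun z => ∑ j, ‖φ j z‖ with hS
  have hScont : Continuous S := by
    apply continuous_finsetSum
    intro j _
    exact (hφ j).continuous.norm
  have hSj : ∀ j z, ‖φ j z‖ ≤ S z := fun j z =>
    Finset.single_le_sum (f := fun j => ‖φ j z‖) (fun i _ => norm_nonneg _) (Finset.mem_univ j)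
  obtain ⟨M, hM1, hM2⟩ := exists_sup hScont (fun z => Finset.sum_nonneg fun j _ => norm_nonneg _)
  have hMnn : ∀ ρ, 0 ≤ ρ → 0 ≤ M ρ := by
    intro ρ hρ
    refine le_trans ?_ (hM1 ρ 0 (by simpa using hρ))
    exact Finset.sum_nonneg fun j _ => norm_nonneg _
  have hmono : ∀ x y, 1 ≤ x → x ≤ y → M x ≤ M y := by
    intro x y hx hxy
    obtain ⟨z, hz, hz2⟩ := hM2 x (by linarith)
    rw [← hz2]
    exact hM1 y z (hz.trans hxy)
  obtain ⟨j₀, hj₀⟩ := hnc
  obtain ⟨cc, hcc, hlin⟩ := linear_growth (hφ j₀) hj₀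
  have hlin' : ∀ x, 1 ≤ x → cc * x ≤ M x := by
    intro x hx
    apply hlin x (M x) hx
    intro z hz
    exact (hSj j₀ z).trans (hM1 x z hz)
  -- constants
  set Im : ℕ := Finset.univ.sup I with hIm
  have hIle : ∀ a, I a ≤ Im := fun a => Finset.le_sup (Finset.mem_univ a)
  set m : ℕ := Fintype.card J with hm
  set L : ℝ := |Real.log ‖E 0‖| + 1 with hL
  set C₁ : ℝ := Real.log m.factorial + m * (Real.log Im.factorial + 1 + Real.log K
    + D * Real.log 4 + Im * Real.log 2) + m * D + m * Im with hC₁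
  have hlogm : 0 ≤ Real.log m.factorial := Real.log_nonneg (by exact_mod_cast Nat.factorial_pos m)
  have hlogI : 0 ≤ Real.log Im.factorial := Real.log_nonneg (by exact_mod_cast Nat.factorial_pos Im)
  have hlogK : 0 ≤ Real.log K := Real.log_nonneg hK1
  have hlog4 : 0 ≤ Real.log 4 := Real.log_nonneg (by norm_num)
  have hlog2 : 0 ≤ Real.log 2 := Real.log_nonneg (by norm_num)
  have hC₁nn : 0 ≤ C₁ := by positivity
  set Φ : ℝ := ∑ j, ‖φ j 0‖ with hΦ
  have hΦnn : 0 ≤ Φ := Finset.sum_nonneg fun j _ => norm_nonneg _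
  set C : ℝ := m * (10 * (C₁ + L)) + 3 * Φ with hC
  have hLpos : 0 < L := by positivity
  have hCnn : 0 ≤ C := by positivity
  apply growth_false hmono hcc hCnn hlin'
  intro x hx η hη hη1
  have hxpos : 0 < x := by linarith
  set R : ℝ := x * (1 + 3 * η) with hR
  set r : ℝ := x * (1 + 2 * η) with hr
  set s : ℝ := x * (1 + η) with hs
  have hxη : 0 < x * η := mul_pos hxpos hη
  have hrR : r + η ≤ R := by rw [hr, hR]; nlinarith
  have hsr : s < r := by rw [hs, hr]; nlinarith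
  have hxs : x < s := by rw [hs]; nlinarith
  have hspos : 0 < s := by linarith
  have hRpos : 0 < R := by linarith
  set μ : ℝ := M R with hμ
  have hμnn : 0 ≤ μ := hMnn R hRpos.le
  -- entries bound
  set b : ℝ := Im.factorial * (Real.exp 1 * (K * (1 + R) ^ D)) * (2 * (μ + 1) / η) ^ Im with hb
  have hbase : 1 ≤ 2 * (μ + 1) / η := by
    rw [le_div_iff₀ hη]; linarith
  have hbpos : 0 < b := by positivity
  have hb_aux : ∀ i ≤ Im, ∀ t : ℝ, 0 ≤ t →
      (i.factorial : ℝ) * t / (η / (2 * (μ + 1))) ^ i ≤ Im.factorial * t * (2 * (μ + 1) / η) ^ Im := by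
    intro i hi t ht
    have e : (i.factorial : ℝ) * t / (η / (2 * (μ + 1))) ^ i
        = i.factorial * t * (2 * (μ + 1) / η) ^ i := by
      rw [div_eq_mul_inv, ← inv_pow, inv_div]
    rw [e]
    have h1 : (i.factorial : ℝ) ≤ Im.factorial := by exact_mod_cast Nat.factorial_le hi
    have h2 : (2 * (μ + 1) / η) ^ i ≤ (2 * (μ + 1) / η) ^ Im := pow_le_pow_right₀ hbase hi
    gcongr
  have hPb : ∀ z, ‖z‖ = r → ∀ j a, ‖Pd (c j) (φ j) (I a) z‖ ≤ b := by
    intro z hz j a
    have h1 := Pd_bound (hc j) (hφ j) (by linarith) (hK j) (R := R) (μ := μ) hη (z := z)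
      (by rw [hz]; exact hrR) (fun w hw => (hSj j w).trans (hM1 R w hw)) (I a)
    refine h1.trans ?_
    exact hb_aux (I a) (hIle a) _ (by positivity)
  have hPeb : ∀ z, ‖z‖ = r → ∀ a, ‖Pd ce (fun _ => 0) (I a) z‖ ≤ b := by
    intro z hz a
    have h1 := Pd_bound hce (differentiable_const (0:ℂ)) (by linarith) hKe (R := R) (μ := μ) hη
      (z := z) (by rw [hz]; exact hrR) (fun w hw => by simpa using hμnn) (I a)
    refine h1.trans ?_
    exact hb_aux (I a) (hIle a) _ (by positivity)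
  have hdetb : ∀ A : Matrix J J ℂ, (∀ i j, ‖A i j‖ ≤ b) → ‖A.det‖ ≤ m.factorial * b ^ m := by
    intro A hA
    have := Matrix.det_le (A := A) (abv := NormedField.toAbsoluteValue ℂ) (x := b) hA
    rw [nsmul_eq_mul] at this
    exact this
  set B : ℝ := Real.log (m.factorial * b ^ m) with hB
  have hmfb : 0 < (m.factorial : ℝ) * b ^ m := by positivity
  have hexpB : Real.exp B = m.factorial * b ^ m := Real.exp_log hmfb
  have hEb : ∀ z, ‖z‖ = r → ‖E z‖ ≤ Real.exp B := by
    intro z hz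
    rw [hexpB]
    apply hdetb
    intro i j
    exact hPb z hz i j
  have hDb : ∀ k z, ‖z‖ = r → ‖Dk k z‖ ≤ Real.exp B := by
    intro k z hz
    rw [hexpB]
    apply hdetb
    intro i j
    by_cases hik : i = k
    · subst hik
      simp only [Matrix.updateRow_self]
      exact hPeb z hz j
    · rw [Matrix.updateRow_ne hik]
      exact hPb z hz i j
  -- value of `B`
  set Q : ℝ := 1 + Real.log (1 + x) + Real.log (1 + μ) + Real.log (1 / η) with hQ
  have hlb := log_bound m Im D hK1 hx hη hη1 hμnn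
  have hBnn : 0 ≤ B := hlb.1
  have hBle : B ≤ C₁ * Q := hlb.2
  have hQ1 : 1 ≤ Q := by
    have h1 : 0 ≤ Real.log (1 + x) := Real.log_nonneg (by linarith)
    have h2 : 0 ≤ Real.log (1 + μ) := Real.log_nonneg (by linarith)
    have h3 : 0 ≤ Real.log (1 / η) := Real.log_nonneg (by rw [le_div_iff₀ hη]; linarith)
    rw [hQ]; linarith
  -- bound for each `φ k`
  have hφb : ∀ k z, ‖z‖ ≤ x → ‖φ k z‖ ≤ (10 * (C₁ + L) * Q + 3 * ‖φ k 0‖) / η ^ 2 := by
    intro k z hz
    have hPJ : ∀ w, ‖w‖ ≤ s → (φ k w).re ≤ (r + s) / (r - s) * (B - Real.log ‖E 0‖) := by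
      intro w hw
      apply re_le_of_poisson (hφ k) hEd hE0 (D := Dk k) _ hspos hsr hBnn (hDb k) hEb hw
      intro z
      rw [hDE k z, norm_neg, norm_mul, Complex.norm_exp]
    have hrs : (r + s) / (r - s) ≤ 5 / η := by
      have e1 : r - s = x * η := by rw [hr, hs]; ring
      have e2 : r + s = x * (2 + 3 * η) := by rw [hr, hs]; ring
      rw [e1, e2, div_le_div_iff₀ hxη hη]
      have : x * (2 + 3 * η) * η = x * η * (2 + 3 * η) := by ring
      rw [this]
      have h5 : 2 + 3 * η ≤ 5 := by linarith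
      calc x * η * (2 + 3 * η) ≤ x * η * 5 := by gcongr
        _ = 5 * (x * η) := by ring
    have hlogE : B - Real.log ‖E 0‖ ≤ B + L := by
      have := neg_abs_le (Real.log ‖E 0‖)
      rw [hL]; linarith
    have hBL : 0 < B + L := by linarith
    set A : ℝ := 5 / η * (B + L) with hA
    have hApos : 0 < A := by positivity
    have hre : ∀ w, ‖w‖ ≤ s → (φ k w).re ≤ A := by
      intro w hw
      refine (hPJ w hw).trans ?_
      have hrspos : 0 ≤ (r + s) / (r - s) := div_nonneg (by linarith) (by linarith)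
      calc (r + s) / (r - s) * (B - Real.log ‖E 0‖) ≤ (r + s) / (r - s) * (B + L) := by gcongr
        _ ≤ 5 / η * (B + L) := by gcongr
    have hBC := Complex.borelCaratheodory (f := φ k) (M := A) (R := s) (z := z) hApos
      (hφ k).differentiableOn (fun w hw => by
        have : ‖w‖ < s := by simpa using hw
        exact hre w this.le) hspos (by simpa using lt_of_le_of_lt hz hxs)
    refine hBC.trans ?_
    have hden : x * η ≤ s - ‖z‖ := by rw [hs]; linarith
    have hdenpos : 0 < s - ‖z‖ := lt_of_lt_of_le hxη hden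
    have t1 : 2 * A * ‖z‖ / (s - ‖z‖) ≤ 2 * A / η := by
      rw [div_le_div_iff₀ hdenpos hη]
      calc 2 * A * ‖z‖ * η ≤ 2 * A * x * η := by gcongr
        _ = 2 * A * (x * η) := by ring
        _ ≤ 2 * A * (s - ‖z‖) := by gcongr
    have t2 : ‖φ k 0‖ * (s + ‖z‖) / (s - ‖z‖) ≤ 3 * ‖φ k 0‖ / η := by
      rw [div_le_div_iff₀ hdenpos hη]
      have h6 : s + ‖z‖ ≤ 3 * x := by rw [hs]; nlinarith
      calc ‖φ k 0‖ * (s + ‖z‖) * η ≤ ‖φ k 0‖ * (3 * x) * η := by gcongr
        _ = 3 * ‖φ k 0‖ * (x * η) := by ring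
        _ ≤ 3 * ‖φ k 0‖ * (s - ‖z‖) := by gcongr
    have t3 : 2 * A / η = 10 * (B + L) / η ^ 2 := by rw [hA]; field_simp; ring
    have t4 : 3 * ‖φ k 0‖ / η ≤ 3 * ‖φ k 0‖ / η ^ 2 := by
      apply div_le_div_of_nonneg_left (by positivity) (by positivity)
      nlinarith
    have t5 : B + L ≤ (C₁ + L) * Q := by nlinarith
    calc 2 * A * ‖z‖ / (s - ‖z‖) + ‖φ k 0‖ * (s + ‖z‖) / (s - ‖z‖)
        ≤ 10 * (B + L) / η ^ 2 + 3 * ‖φ k 0‖ / η ^ 2 := by rw [← t3]; linarith
      _ ≤ 10 * ((C₁ + L) * Q) / η ^ 2 + 3 * ‖φ k 0‖ / η ^ 2 := by gcongr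
      _ = (10 * (C₁ + L) * Q + 3 * ‖φ k 0‖) / η ^ 2 := by ring
  obtain ⟨z, hz, hz2⟩ := hM2 x hxpos.le
  rw [← hz2]
  have hsumb : S z ≤ ∑ k, (10 * (C₁ + L) * Q + 3 * ‖φ k 0‖) / η ^ 2 :=
    Finset.sum_le_sum fun k _ => hφb k z hz
  refine hsumb.trans ?_
  have hsum2 : ∑ k : J, (10 * (C₁ + L) * Q + 3 * ‖φ k 0‖) / η ^ 2
      = (m * (10 * (C₁ + L) * Q) + 3 * Φ) / η ^ 2 := by
    rw [← Finset.sum_div]
    congr 1
    have e1 : ∑ k : J, 3 * ‖φ k 0‖ = 3 * Φ := by rw [hΦ, Finset.mul_sum]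
    rw [Finset.sum_add_distrib, e1, Finset.sum_const, Finset.card_univ, nsmul_eq_mul]
  rw [hsum2, div_mul_eq_mul_div]
  apply div_le_div_of_nonneg_right _ (by positivity)
  rw [hC]
  have : 3 * Φ ≤ 3 * Φ * Q := by nlinarith
  calc (m:ℝ) * (10 * (C₁ + L) * Q) + 3 * Φ ≤ m * (10 * (C₁ + L) * Q) + 3 * Φ * Q := by linarith
    _ = (m * (10 * (C₁ + L)) + 3 * Φ) * Q := by ring

end Pool.Agent.H13.Borel
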