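import Mathlib

/-!
# Entire functions with finitely many zeros are `p e^φ`
-/

open Set Complex Filter

namespace Pool.Agent.H13.Borel

/-- A zero-free entire function is an exponential. -/
lemma exists_entire_log {g : ℂ → ℂ} (hg : Differentiable ℂ g) (h0 : ∀ z, g z ≠ 0) :
    ∃ φ : ℂ → ℂ, Differentiable ℂ φ ∧ ∀ z, g z = Complex.exp (φ z) := by
  have hd : Differentiable ℂ (fun z => deriv g z / g z) := by
    apply Differentiable.div _ hg h0
    exact (hg.contDiff (n := 2)).differentiable_deriv_two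
  obtain ⟨φ, hφ0, hφ⟩ := (hd.isExactOn_univ).with_val_at 0 (Complex.log (g 0))
  have hφ' : ∀ z, HasDerivAt φ (deriv g z / g z) z := fun z => hφ z (mem_univ z)
  refine ⟨φ, fun z => (hφ' z).differentiableAt, ?_⟩
  have hconst : ∀ z, g z * Complex.exp (-φ z) = g 0 * Complex.exp (-φ 0) := by
    intro z
    apply is_const_of_deriv_eq_zero (𝕜 := ℂ) (f := fun z => g z * Complex.exp (-φ z))
    · exact hg.mul (fun z => ((hφ' z).differentiableAt).neg.cexp)
    · intro z
      have h1 : HasDerivAt (fun z => g z * Complex.exp (-φ z))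
          (deriv g z * Complex.exp (-φ z) + g z * (Complex.exp (-φ z) * (-(deriv g z / g z)))) z :=
        (hg z).hasDerivAt.mul ((hφ' z).neg.cexp)
      rw [h1.deriv]
      field_simp [h0 z]
      ring
  intro z
  have h2 := hconst z
  rw [hφ0, Complex.exp_neg, Complex.exp_neg, Complex.exp_log (h0 0), mul_inv_cancel₀ (h0 0)] at h2
  have h3 : Complex.exp (φ z) ≠ 0 := Complex.exp_ne_zero _
  field_simp at h2
  exact h2

/-- An entire function with finitely many zeros is `p e^φ`. -/
theorem exists_poly_mul_exp {f : ℂ → ℂ} (hf : Differentiable ℂ f) (hne : ∃ z, f z ≠ 0)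
    (hfin : {z | f z = 0}.Finite) :
    ∃ (p : Polynomial ℂ) (φ : ℂ → ℂ), p ≠ 0 ∧ Differentiable ℂ φ ∧
      ∀ z, f z = p.eval z * Complex.exp (φ z) := by
  classical
  have hA : AnalyticOnNhd ℂ f univ := fun z _ => hf.analyticAt z
  have hM : MeromorphicOn f univ := hA.meromorphicOn
  have htop : ∀ u : (univ : Set ℂ), meromorphicOrderAt f u ≠ ⊤ := by
    rintro ⟨u, _⟩ hu
    rw [meromorphicOrderAt_eq_top_iff] at hu
    have h3 : ∃ᶠ z in nhdsWithin u {u}ᶜ, f z = (fun _ => 0) z := hu.frequently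
    have h4 := hA.eq_of_frequently_eq (fun z _ => analyticAt_const) h3
    obtain ⟨z, hz⟩ := hne
    exact hz (by rw [h4])
  set D := MeromorphicOn.divisor f univ with hD
  have hDnn : 0 ≤ D := MeromorphicOn.AnalyticOnNhd.divisor_nonneg hA
  have hDsupp : (D : ℂ → ℤ).support ⊆ {z | f z = 0} := by
    intro u hu
    by_contra hu0
    apply hu
    rw [hD, MeromorphicOn.AnalyticOnNhd.divisor_apply hA (mem_univ u),
      (hA u (mem_univ u)).analyticOrderAt_eq_zero.mpr hu0]
    simp
  have hDfin : (D : ℂ → ℤ).support.Finite := hfin.subset hDsupp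
  obtain ⟨g, hg, hg0, hfg⟩ := hM.extract_zeros_poles htop hDfin
  have hgd : Differentiable ℂ g := fun z => (hg z (mem_univ z)).differentiableAt
  obtain ⟨φ, hφ, hgφ⟩ := exists_entire_log hgd (fun z => hg0 ⟨z, mem_univ z⟩)
  set p : Polynomial ℂ := ∏ u ∈ hDfin.toFinset, (Polynomial.X - Polynomial.C u) ^ (D u).toNat
    with hp
  have hp0 : p ≠ 0 := by
    rw [hp]
    apply Finset.prod_ne_zero_iff.mpr
    intro u _
    exact pow_ne_zero _ (Polynomial.X_sub_C_ne_zero u)
  have hpe : ∀ z, (∏ᶠ u, (fun w : ℂ => w - u) ^ D u : ℂ → ℂ) z = p.eval z := by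
    intro z
    rw [finprod_eq_prod_of_mulSupport_subset (s := hDfin.toFinset)]
    · rw [Finset.prod_apply, hp, Polynomial.eval_prod]
      apply Finset.prod_congr rfl
      intro u _
      have h1 : D u = ((D u).toNat : ℤ) := (Int.toNat_of_nonneg (hDnn u)).symm
      rw [Pi.pow_apply, Polynomial.eval_pow, Polynomial.eval_sub, Polynomial.eval_X,
        Polynomial.eval_C]
      conv_lhs => rw [h1]
      rw [zpow_natCast]
    · intro u hu
      rw [Finite.coe_toFinset]
      intro h0
      apply hu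
      show (fun w : ℂ => w - u) ^ D u = 1
      rw [h0, zpow_zero]
  refine ⟨p, φ, hp0, hφ, ?_⟩
  have heq : ∀ᶠ z in codiscreteWithin univ, f z = p.eval z * Complex.exp (φ z) := by
    filter_upwards [hfg] with z hz
    rw [hz, ← hgφ, ← hpe]
    rfl
  have hA2 : AnalyticOnNhd ℂ (fun z => p.eval z * Complex.exp (φ z)) univ :=
    fun z _ => (p.differentiable.mul hφ.cexp).analyticAt z
  have h5 : ∃ᶠ z in nhdsWithin (0:ℂ) {0}ᶜ, f z = (fun z => p.eval z * Complex.exp (φ z)) z := by
    apply Filter.Eventually.frequently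
    have := mem_codiscreteWithin_iff_forall_mem_nhdsNE.mp heq 0 (mem_univ 0)
    have h7 : {x | f x = p.eval x * Complex.exp (φ x)} ∈ nhdsWithin (0:ℂ) {0}ᶜ := by
      simpa using this
    exact h7
  have h6 := hA.eq_of_frequently_eq hA2 h5
  intro z
  rw [h6]

end Pool.Agent.H13.Borel
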