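import Mathlib

/-!
# A Poisson–Jensen estimate

If `‖D z‖ = exp (re φ z) ‖E z‖` with `D, E, φ` entire, and `‖D‖, ‖E‖ ≤ e^B` on the circle
`|z| = r`, then `re φ` is bounded above on smaller discs.
-/

open Real Metric Set Complex MeasureTheory Filter

namespace Pool.Agent.H13.Borel

/-- `log ‖E(0)‖ ≤` circle average of `log ‖E‖` (Jensen). -/
lemma jensen_le {E : ℂ → ℂ} (hE : Differentiable ℂ E) (hE0 : E 0 ≠ 0) {r : ℝ} (hr : 0 < r) :
    Real.log ‖E 0‖ ≤ circleAverage (fun z => Real.log ‖E z‖) 0 r := by
  have hA : AnalyticOnNhd ℂ E (closedBall 0 |r|) := fun z _ => hE.analyticAt z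
  have h := hA.circleAverage_log_norm hr.ne' hE0
  rw [h]
  have : 0 ≤ ∑ᶠ u, (MeromorphicOn.divisor E (closedBall 0 |r|) u : ℝ)
      * Real.log (r * ‖(0:ℂ) - u‖⁻¹) := by
    apply finsum_nonneg
    intro u
    by_cases hu : u ∈ closedBall (0:ℂ) |r|
    · apply mul_nonneg
      · have := MeromorphicOn.AnalyticOnNhd.divisor_nonneg hA
        exact_mod_cast this u
      · by_cases hu0 : u = 0
        · simp [hu0]
        · apply Real.log_nonneg
          have h1 : ‖u‖ ≤ r := by simpa [abs_of_pos hr] using hu
          have h2 : 0 < ‖u‖ := norm_pos_iff.mpr hu0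
          rw [zero_sub, norm_neg, ← div_eq_mul_inv, le_div_iff₀ h2]
          linarith
    · have : MeromorphicOn.divisor E (closedBall 0 |r|) u = 0 := by
        apply Function.locallyFinsuppWithin.apply_eq_zero_of_notMem
        exact hu
      simp [this]
  linarith

lemma ne_zero_codiscrete {E : ℂ → ℂ} (hE : Differentiable ℂ E) (hE0 : E 0 ≠ 0) (S : Set ℂ) :
    {z | E z ≠ 0} ∈ codiscreteWithin S := by
  have hmero : AnalyticOnNhd ℂ E univ := fun z _ => hE.analyticAt z
  have h2 : ∀ᶠ z in codiscreteWithin (univ : Set ℂ), E z ≠ 0 := by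
    apply MeromorphicAt.MeromorphicOn.codiscreteWithin_setOfPred_ne_zero hmero.meromorphicOn
    intro u _ hu
    rw [meromorphicOrderAt_eq_top_iff] at hu
    have h3 : ∃ᶠ z in nhdsWithin u {u}ᶜ, E z = (fun _ => 0) z := hu.frequently
    have h4 := hmero.eq_of_frequently_eq (fun z _ => analyticAt_const) h3
    exact hE0 (by rw [h4])
  exact Filter.codiscreteWithin_mono (subset_univ _) h2

lemma re_le_of_poisson {φ D E : ℂ → ℂ} (hφ : Differentiable ℂ φ)
    (hE : Differentiable ℂ E) (hE0 : E 0 ≠ 0)
    (hDE : ∀ z, ‖D z‖ = Real.exp (φ z).re * ‖E z‖) {r s B : ℝ} (hs : 0 < s) (hsr : s < r)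
    (hB : 0 ≤ B) (hBD : ∀ z, ‖z‖ = r → ‖D z‖ ≤ Real.exp B)
    (hBE : ∀ z, ‖z‖ = r → ‖E z‖ ≤ Real.exp B) {w : ℂ} (hw : ‖w‖ ≤ s) :
    (φ w).re ≤ (r + s) / (r - s) * (B - Real.log ‖E 0‖) := by
  have hr : 0 < r := hs.trans hsr
  have hw' : w ∈ ball (0:ℂ) r := by simpa using lt_of_le_of_lt hw hsr
  have hP := (hφ.diffContOnCl (s := ball (0:ℂ) r)).circleAverage_re_herglotzRieszKernel_smul hw'
  have hfc : ContinuousOn ((Complex.re ∘ herglotzRieszKernel 0 w) • φ) (sphere 0 |r|) := by
    apply ContinuousOn.smul
    · exact Complex.continuous_re.comp_continuousOn (continuousOn_herglotzRieszKernel_sphere hw')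
    · exact hφ.continuous.continuousOn
  have hint : CircleIntegrable ((Complex.re ∘ herglotzRieszKernel 0 w) • φ) 0 r :=
    ContinuousOn.circleIntegrable' hfc
  have hre := Complex.reCLM.circleAverage_comp_comm hint
  rw [hP] at hre
  set f : ℂ → ℝ := fun z => (herglotzRieszKernel 0 w z).re * (φ z).re with hf
  have h1 : (φ w).re = circleAverage f 0 r := by
    have : (Complex.reCLM ∘ ((Complex.re ∘ herglotzRieszKernel 0 w) • φ)) = f := by
      funext z; simp [hf]
    rw [← this, hre]; rfl
  have hfc' : ContinuousOn f (sphere 0 |r|) := by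
    apply ContinuousOn.mul
    · exact Complex.continuous_re.comp_continuousOn (continuousOn_herglotzRieszKernel_sphere hw')
    · exact (Complex.continuous_re.comp hφ.continuous).continuousOn
  have hfint : CircleIntegrable f 0 r := ContinuousOn.circleIntegrable' hfc'
  set g : ℂ → ℝ := fun z => if E z = 0 then 0 else f z
    with hg
  have hcod : f =ᶠ[codiscreteWithin (sphere 0 |r|)] g := by
    filter_upwards [ne_zero_codiscrete hE hE0 (sphere 0 |r|)] with z hz
    simp only [hg]
    rw [if_neg hz]
  have h2 : (φ w).re = circleAverage g 0 r := by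
    rw [h1]
    exact circleAverage_congr_codiscreteWithin hcod hr.ne'
  have hgint : CircleIntegrable g 0 r := hfint.congr_codiscreteWithin hcod
  set K : ℝ := (r + s) / (r - s) with hK
  have hKpos : 0 < K := div_pos (by linarith) (by linarith)
  have hlogint : CircleIntegrable (fun z => Real.log ‖E z‖) 0 r :=
    MeromorphicOn.circleIntegrable_log_norm (fun z _ => (hE.analyticAt z).meromorphicAt)
  have hconst : CircleIntegrable (fun _ : ℂ => B) 0 r := circleIntegrable_const _ _ _
  have hu : CircleIntegrable (fun z => B - Real.log ‖E z‖) 0 r := hconst.sub hlogint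
  have hu' : CircleIntegrable (fun z => K * (B - Real.log ‖E z‖)) 0 r := hu.const_mul _
  have h3 : circleAverage g 0 r ≤ circleAverage (fun z => K * (B - Real.log ‖E z‖)) 0 r := by
    apply circleAverage_mono hgint hu'
    intro z hz
    have hz' : ‖z‖ = r := by simpa [abs_of_pos hr] using hz
    have hlogE : Real.log ‖E z‖ ≤ B := by
      by_cases h : E z = 0
      · simp [h, hB]
      · rw [Real.log_le_iff_le_exp (norm_pos_iff.mpr h)]
        exact hBE z hz'
    simp only [hg]
    split_ifs with h
    · exact mul_nonneg hKpos.le (by linarith)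
    · have hEpos : 0 < ‖E z‖ := norm_pos_iff.mpr h
      have h4 : (φ z).re ≤ B - Real.log ‖E z‖ := by
        have h5 := hBD z hz'
        rw [hDE z] at h5
        have h6 := Real.log_le_log (by positivity) h5
        rw [Real.log_mul (Real.exp_pos _).ne' hEpos.ne', Real.log_exp, Real.log_exp] at h6
        linarith
      have hk := re_herglotzRieszKernel_le (c := 0) (R := r) (z := z) (w := w) (by simpa using hz') hw'
      have hk0 := le_re_herglotzRieszKernel (c := 0) (R := r) (z := z) (w := w) (by simpa using hz') hw'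
      have hkd : (herglotzRieszKernel 0 w z).re
          = ((z - 0 + (w - 0)) / ((z - 0) - (w - 0))).re := by
        rw [herglotzRieszKernel_def]
      rw [← hkd] at hk hk0
      have hwr : ‖w‖ < r := by simpa using hw'
      have hknn : 0 ≤ (herglotzRieszKernel 0 w z).re := by
        refine le_trans ?_ hk0
        apply div_nonneg
        · simp; linarith
        · simp only [sub_zero]; positivity
      have hkK : (herglotzRieszKernel 0 w z).re ≤ K := by
        refine hk.trans ?_
        simp only [sub_zero, hK]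
        rw [div_le_div_iff₀ (by linarith) (by linarith)]
        nlinarith [norm_nonneg w]
      calc f z = (herglotzRieszKernel 0 w z).re * (φ z).re := rfl
        _ ≤ (herglotzRieszKernel 0 w z).re * (B - Real.log ‖E z‖) := by gcongr
        _ ≤ K * (B - Real.log ‖E z‖) := by
            apply mul_le_mul_of_nonneg_right hkK (by linarith)
  have h4 : circleAverage (fun z => K * (B - Real.log ‖E z‖)) 0 r
      = K * (B - circleAverage (fun z => Real.log ‖E z‖) 0 r) := by
    have e1 : (fun z => K * (B - Real.log ‖E z‖)) = K • ((fun _ : ℂ => B) - (fun z => Real.log ‖E z‖)) := by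
      funext z; simp
    rw [e1, circleAverage_smul, circleAverage_sub hconst hlogint, circleAverage_const]
    simp
  rw [h2]
  refine h3.trans ?_
  rw [h4]
  have := jensen_le hE hE0 hr
  gcongr

end Pool.Agent.H13.Borel
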